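import Pool.Agent.Work.MP_3738f3_ag.Cert

set_option autoImplicit false

namespace Pool.Agent.Work.MP_3738f3_ag

open MvPolynomial

noncomputable section

theorem stable0 (m : ℕ) (b : Fin m → ℤ) (M : Fin 11 → Fin m → MvPolynomial (Fin 2) ℂ)
    (hm : 1 ≤ m) (hMh : ∀ i j, M i j ∈ HomZ (e0 i - b j))
    (hM : LinearIndependent (MvPolynomial (Fin 2) ℂ) (fun j : Fin m => fun i : Fin 11 => M i j))
    (hne : ¬ (m = 11 ∧ ∑ j, b j = 14)) :
    11 * (∑ j, b j) + 33 * (Module.finrank ℂ ↥(V0 ⊓ (Hsec b).map (mulM M)) : ℤ) < 62 * m := by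
  have hm11 : m ≤ 11 := by
    have := hM.fintype_card_le_finrank
    simpa using this
  have h1 := count e0 V0 f1 w1 w1_mem cert1 b M hMh hM
  have h2 := count e0 V0 f2 w2 w2_mem cert2 b M hMh hM
  set K := Module.finrank ℂ ↥(V0 ⊓ (Hsec b).map (mulM M)) with hK
  have h1' : (∑ j, (3 * ((b j - 1).toNat : ℤ) - ((b j + 1).toNat : ℤ))) + K ≤ 0 := by
    have e : ∀ j, ∑ l, (b j - f1 l + 1).toNat = 3 * (b j - 1).toNat := by
      intro j
      simp only [Fin.sum_univ_three, f1, Matrix.cons_val]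
      omega
    simp only [e] at h1
    rw [Finset.sum_sub_distrib]
    have h1z : ((∑ j, 3 * (b j - 1).toNat : ℕ) : ℤ) + 1 * (K : ℤ) ≤
        1 * ((∑ j, (b j + 1).toNat : ℕ) : ℤ) := by exact_mod_cast h1
    push_cast at h1z
    linarith
  have h2' : (∑ j, (4 * ((b j - 1).toNat : ℤ) + 3 * ((b j).toNat : ℤ) -
      6 * ((b j + 1).toNat : ℤ))) + 6 * K ≤ 0 := by
    have e : ∀ j, ∑ l, (b j - f2 l + 1).toNat = 4 * (b j - 1).toNat + 3 * (b j).toNat := by
      intro j
      simp only [Fin.sum_univ_seven, f2, Matrix.cons_val]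
      have r1 : b j - 2 + 1 = b j - 1 := by ring
      have r2 : b j - 1 + 1 = b j := by ring
      rw [r1, r2]
      ring
    simp only [e] at h2
    rw [Finset.sum_sub_distrib, ← Finset.mul_sum (f := fun j => ((b j + 1).toNat : ℤ))]
    have h2z : ((∑ j, (4 * (b j - 1).toNat + 3 * (b j).toNat) : ℕ) : ℤ) + 6 * (K : ℤ) ≤
        6 * ((∑ j, (b j + 1).toNat : ℕ) : ℤ) := by exact_mod_cast h2
    push_cast at h2z
    linarith
  by_cases hneg : ∃ j, b j < 0
  · obtain ⟨j0, hj0⟩ := hneg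
    have hlt : ∑ j, (11 * b j - 62) < ∑ j, (3 * (3 * ((b j - 1).toNat : ℤ) -
        ((b j + 1).toNat : ℤ)) + 5 * (4 * ((b j - 1).toNat : ℤ) + 3 * ((b j).toNat : ℤ) -
        6 * ((b j + 1).toNat : ℤ))) := by
      apply Finset.sum_lt_sum
      · intro j _
        omega
      · refine ⟨j0, Finset.mem_univ _, ?_⟩
        omega
    rw [Finset.sum_add_distrib, ← Finset.mul_sum, ← Finset.mul_sum, Finset.sum_sub_distrib,
      ← Finset.mul_sum] at hlt
    simp only [Finset.sum_const, Finset.card_univ, Fintype.card_fin, nsmul_eq_mul] at hlt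
    linarith
  · push Not at hneg
    have g1 : ∑ j, (2 * b j - 4) ≤ ∑ j, (3 * ((b j - 1).toNat : ℤ) - ((b j + 1).toNat : ℤ)) := by
      apply Finset.sum_le_sum
      intro j _
      have := hneg j
      omega
    have g2 : ∑ j, (b j - 10) ≤ ∑ j, (4 * ((b j - 1).toNat : ℤ) + 3 * ((b j).toNat : ℤ) -
        6 * ((b j + 1).toNat : ℤ)) := by
      apply Finset.sum_le_sum
      intro j _
      have := hneg j
      omega
    rw [Finset.sum_sub_distrib, ← Finset.mul_sum] at g1
    rw [Finset.sum_sub_distrib] at g2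
    simp only [Finset.sum_const, Finset.card_univ, Fintype.card_fin, nsmul_eq_mul] at g1 g2
    generalize (∑ j, b j) = S at *
    have k1 : 2 * S - m * 4 + K ≤ 0 := by linarith
    have k2 : S - m * 10 + 6 * K ≤ 0 := by linarith
    omega

end

end Pool.Agent.Work.MP_3738f3_ag
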