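import Pool.Agent.Work.MP_3738f3_ag.Upper
import Pool.Agent.Work.MP_3738f3_ag.Stable

set_option autoImplicit false

namespace Pool.Agent.Work.MP_3738f3_ag

open MvPolynomial

noncomputable section

theorem deg_find {A B h : MvPolynomial (Fin 2) ℂ} {E : ℤ} (hh : h ≠ 0) (hAB : A ≠ 0 ∨ B ≠ 0)
    (hA : A * h ∈ HomZ E) (hB : B * h ∈ HomZ E) :
    ∃ a : ℕ, A.IsHomogeneous a ∧ B.IsHomogeneous a := by
  by_cases hA0 : A = 0
  · have hB0 : B ≠ 0 := by
      rcases hAB with h | h
      · exact absurd hA0 h
      · exact h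
    obtain ⟨a, b, ha, -, -⟩ := hom_of_mul hB0 hh hB.1
    exact ⟨a, by rw [hA0]; exact isHomogeneous_zero _ _ _, ha⟩
  · obtain ⟨a, b, ha, hb, hab⟩ := hom_of_mul hA0 hh hA.1
    by_cases hB0 : B = 0
    · exact ⟨a, ha, by rw [hB0]; exact isHomogeneous_zero _ _ _⟩
    · obtain ⟨a', b', ha', hb', hab'⟩ := hom_of_mul hB0 hh hB.1
      have h1 : b = b' := hb.inj_right hb' hh
      have h2 : a = a' := by omega
      subst h2
      exact ⟨a, ha, ha'⟩

/-- Two proportional polynomial vectors have a common factor vector. -/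
theorem common_factor {n : ℕ} {F G : Fin n → MvPolynomial (Fin 2) ℂ}
    {p q : MvPolynomial (Fin 2) ℂ} (hpq : ∀ i, p * F i + q * G i = 0) (h0 : p ≠ 0 ∨ q ≠ 0) :
    ∃ (A B : MvPolynomial (Fin 2) ℂ) (h : Fin n → MvPolynomial (Fin 2) ℂ),
      (∀ i, F i = A * h i) ∧ (∀ i, G i = B * h i) ∧ (A ≠ 0 ∨ B ≠ 0) := by
  by_cases hp : p = 0
  · have hq : q ≠ 0 := by
      rcases h0 with h | h
      · exact absurd hp h
      · exact h
    refine ⟨1, 0, F, fun i => by ring, fun i => ?_, Or.inl one_ne_zero⟩
    have := hpq i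
    rw [hp, zero_mul, zero_add] at this
    rcases mul_eq_zero.mp this with h | h
    · exact absurd h hq
    · rw [h, zero_mul]
  · obtain ⟨p', q', c, hrel, hcp, hcq⟩ := UniqueFactorizationMonoid.exists_reduced_factors p hp q
    have hc : c ≠ 0 := by
      rintro rfl
      rw [zero_mul] at hcp
      exact hp hcp.symm
    have hp' : p' ≠ 0 := by
      rintro rfl
      rw [mul_zero] at hcp
      exact hp hcp.symm
    have h1 : ∀ i, p' * F i + q' * G i = 0 := by
      intro i
      apply mul_left_cancel₀ hc
      rw [mul_zero, ← hpq i, ← hcp, ← hcq]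
      ring
    have h2 : ∀ i, p' ∣ G i := by
      intro i
      apply hrel.dvd_of_dvd_mul_left
      exact ⟨-F i, by linear_combination h1 i⟩
    choose h hh using h2
    refine ⟨-q', p', h, fun i => ?_, hh, Or.inr hp'⟩
    apply mul_left_cancel₀ hp'
    have := h1 i
    rw [hh i] at this
    linear_combination this

theorem upper (α : ℝ) (hα : 6 ≤ α) (e : Fin 11 → ℤ)
    (V : Submodule ℂ (Fin 11 → MvPolynomial (Fin 2) ℂ)) (he : ∑ i, e i = 14)
    (hV : Module.finrank ℂ V = 16) (hVh : ∀ s ∈ V, ∀ i, s i ∈ HomZ (e i))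
    (hst : StabIneq α e V) : False := by
  have hpos := caseA α hα e V he hV hVh hst
  have hfin : Module.Finite ℂ V := Module.finite_of_finrank_pos (by rw [hV]; norm_num)
  obtain ⟨s, hs0, hrel⟩ := exists_rel e V he hV hVh hpos
  choose F G hF hFG hG using fun i => solve_rel (hrel i)
  have hFm : ∀ i, F i ∈ HomZ (e i - 1) := by
    intro i
    apply HomZ_of_mul (a := 1) (E := e i) (by norm_num) (isHomogeneous_X _ (1 : Fin 2))
      (X_ne_zero 1)
    rw [← hF i]
    exact hVh _ (s 0).2 i
  have hGm : ∀ i, G i ∈ HomZ (e i - 1) := by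
    intro i
    apply HomZ_of_mul (a := 1) (E := e i) (by norm_num) (isHomogeneous_X _ (0 : Fin 2))
      (X_ne_zero 0)
    rw [← hG i]
    exact hVh _ (s 2).2 i
  have hx1 : (X 0 : MvPolynomial (Fin 2) ℂ) ∈ HomZ 1 := ⟨isHomogeneous_X _ _, by norm_num⟩
  have hy1 : (X 1 : MvPolynomial (Fin 2) ℂ) ∈ HomZ 1 := ⟨isHomogeneous_X _ _, by norm_num⟩
  by_cases hli : LinearIndependent (MvPolynomial (Fin 2) ℂ) ![F, G]
  · -- rank two subsystem
    have key := hst 2 ![1, 1] (fun i j => ![F, G] j i) (by norm_num)
      (by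
        intro i j
        fin_cases j
        · exact hFm i
        · exact hGm i)
      hli (by norm_num)
    set N := V ⊓ (Hsec ![1, 1]).map (mulM (fun i j => ![F, G] j i)) with hN
    have hNfin : Module.Finite ℂ N := Submodule.finiteDimensional_of_le inf_le_left
    have hm0 : (s 0).1 ∈ N := by
      refine ⟨(s 0).2, ![X 1, 0], ?_, ?_⟩
      · refine mem_Hsec.mpr fun j => ?_
        fin_cases j
        · exact hy1
        · exact Submodule.zero_mem (HomZ 1)
      · funext i
        rw [mulM_apply, Fin.sum_univ_two]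
        simp only [Matrix.cons_val_zero, Matrix.cons_val_one]
        rw [hF i]
        ring
    have hm1 : (s 1).1 ∈ N := by
      refine ⟨(s 1).2, ![-X 0, -X 1], ?_, ?_⟩
      · refine mem_Hsec.mpr fun j => ?_
        fin_cases j
        · exact Submodule.neg_mem (HomZ 1) hx1
        · exact Submodule.neg_mem (HomZ 1) hy1
      · funext i
        rw [mulM_apply, Fin.sum_univ_two]
        simp only [Matrix.cons_val_zero, Matrix.cons_val_one]
        rw [hFG i]
        ring
    have hm2 : (s 2).1 ∈ N := by
      refine ⟨(s 2).2, ![0, X 0], ?_, ?_⟩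
      · refine mem_Hsec.mpr fun j => ?_
        fin_cases j
        · exact Submodule.zero_mem (HomZ 1)
        · exact hx1
      · funext i
        rw [mulM_apply, Fin.sum_univ_two]
        simp only [Matrix.cons_val_zero, Matrix.cons_val_one]
        rw [hG i]
        ring
    have hind : LinearIndependent ℂ (![⟨(s 0).1, hm0⟩, ⟨(s 1).1, hm1⟩, ⟨(s 2).1, hm2⟩] :
        Fin 3 → N) := by
      rw [Fintype.linearIndependent_iff]
      intro c hc
      have hc' : ∀ i, c 0 • (s 0).1 i + c 1 • (s 1).1 i + c 2 • (s 2).1 i = 0 := by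
        intro i
        have h1 := congrFun (congrArg Subtype.val hc) i
        simpa [Fin.sum_univ_three] using h1
      have h2 : (C (c 0) * X 1 - C (c 1) * X 0 : MvPolynomial (Fin 2) ℂ) • F +
          (C (c 2) * X 0 - C (c 1) * X 1 : MvPolynomial (Fin 2) ℂ) • G = 0 := by
        funext i
        have h3 := hc' i
        rw [hF i, hFG i, hG i] at h3
        simp only [MvPolynomial.smul_eq_C_mul] at h3
        simp only [Pi.add_apply, Pi.smul_apply, smul_eq_mul, Pi.zero_apply]
        linear_combination h3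
      obtain ⟨h3, h4⟩ := (LinearIndependent.pair_iff.mp hli) _ _ h2
      have h5 := lin_inj (a := -c 1) (b := c 0) (a' := 0) (b' := 0) (by
        simp only [C_neg, C_0, zero_mul, add_zero]
        linear_combination h3)
      have h6 := lin_inj (a := c 2) (b := -c 1) (a' := 0) (b' := 0) (by
        simp only [C_neg, C_0, zero_mul, add_zero]
        linear_combination h4)
      intro k
      fin_cases k
      · exact h5.2
      · exact neg_eq_zero.mp h5.1
      · exact h6.1
    have hcard := hind.fintype_card_le_finrank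
    rw [Fintype.card_fin] at hcard
    have hK : (3 : ℝ) ≤ (Module.finrank ℂ N : ℝ) := by exact_mod_cast hcard
    rw [div_lt_div_iff₀ (by norm_num) (by norm_num)] at key
    have h1 : α * 3 ≤ α * (Module.finrank ℂ N : ℝ) :=
      mul_le_mul_of_nonneg_left hK (by linarith)
    simp only [Fin.sum_univ_two, Matrix.cons_val_zero, Matrix.cons_val_one] at key
    push_cast at key
    linarith
  · -- rank one subsystem
    rw [LinearIndependent.pair_iff] at hli
    push Not at hli
    obtain ⟨p, q, hpq, hpq0⟩ := hli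
    obtain ⟨A, B, h, hFA, hGB, hAB⟩ := common_factor (F := F) (G := G) (p := p) (q := q)
      (fun i => congrFun hpq i) (by
        by_cases hp : p = 0
        · exact Or.inr (hpq0 hp)
        · exact Or.inl hp)
    have hh : ∃ i, h i ≠ 0 := by
      by_contra hcon
      push Not at hcon
      apply hs0
      have hF0 : ∀ i, F i = 0 := fun i => by rw [hFA i, hcon i, mul_zero]
      have hG0 : ∀ i, G i = 0 := fun i => by rw [hGB i, hcon i, mul_zero]
      funext k
      apply Subtype.ext
      funext i
      fin_cases k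
      · exact (hF i).trans (by rw [hF0 i, mul_zero]; rfl)
      · exact (hFG i).trans (by rw [hF0 i, hG0 i]; simp)
      · exact (hG i).trans (by rw [hG0 i, mul_zero]; rfl)
    obtain ⟨i0, hi0⟩ := hh
    obtain ⟨a, hAa, hBa⟩ := deg_find (E := e i0 - 1) hi0 hAB
      (by rw [← hFA i0]; exact hFm i0) (by rw [← hGB i0]; exact hGm i0)
    have hhm : ∀ i, h i ∈ HomZ (e i - (a + 1)) := by
      intro i
      rcases hAB with hA0 | hB0
      · exact HomZ_of_mul (a := a) (E := e i - 1) (by ring) hAa hA0
          (by rw [← hFA i]; exact hFm i)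
      · exact HomZ_of_mul (a := a) (E := e i - 1) (by ring) hBa hB0
          (by rw [← hGB i]; exact hGm i)
    have hAz : A ∈ HomZ a := ⟨by simpa using hAa, fun h => by omega⟩
    have hBz : B ∈ HomZ a := ⟨by simpa using hBa, fun h => by omega⟩
    have key := hst 1 (fun _ => (a + 1 : ℤ)) (fun i _ => h i) (le_refl 1)
      (fun i _ => hhm i)
      (by
        rw [Fintype.linearIndependent_iff]
        intro g hg k
        have h1 := congrFun hg i0
        simp only [Finset.univ_unique, Finset.sum_singleton, Pi.smul_apply, smul_eq_mul,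
          Pi.zero_apply] at h1
        rcases mul_eq_zero.mp h1 with h2 | h2
        · rw [← h2]; congr 1; exact Subsingleton.elim _ _
        · exact absurd h2 hi0)
      (by norm_num)
    set N := V ⊓ (Hsec (fun _ : Fin 1 => (a + 1 : ℤ))).map (mulM (fun i _ => h i)) with hN
    have hNfin : Module.Finite ℂ N := Submodule.finiteDimensional_of_le inf_le_left
    have hm : ∀ (k : Fin 3) (P : MvPolynomial (Fin 2) ℂ), P ∈ HomZ (a + 1) →
        (∀ i, (s k).1 i = P * h i) → (s k).1 ∈ N := by
      intro k P hP hk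
      refine ⟨(s k).2, fun _ => P, mem_Hsec.mpr fun _ => hP, ?_⟩
      funext i
      rw [mulM_apply]
      simp only [Finset.univ_unique, Finset.sum_singleton]
      rw [hk i]
      ring
    have hm0 : (s 0).1 ∈ N := hm 0 (X 1 * A)
      (mul_mem_HomZ (by ring) hy1 hAz)
      (fun i => by rw [hF i, hFA i]; ring)
    have hm1 : (s 1).1 ∈ N := hm 1 (-(X 0 * A + X 1 * B))
      (Submodule.neg_mem _ (Submodule.add_mem _ (mul_mem_HomZ (by ring) hx1 hAz)
        (mul_mem_HomZ (by ring) hy1 hBz)))
      (fun i => by rw [hFG i, hFA i, hGB i]; ring)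
    have hm2 : (s 2).1 ∈ N := hm 2 (X 0 * B)
      (mul_mem_HomZ (by ring) hx1 hBz)
      (fun i => by rw [hG i, hGB i]; ring)
    have hcard : 2 ≤ Module.finrank ℂ N := by
      by_contra hcon
      have h1 : Module.finrank ℂ N ≤ 1 := by omega
      have hfree : Module.Free ℂ N := Module.Free.of_divisionRing ℂ _
      rw [finrank_le_one_iff] at h1
      obtain ⟨v, hv⟩ := h1
      obtain ⟨c0, hc0⟩ := hv ⟨(s 0).1, hm0⟩
      obtain ⟨c1, hc1⟩ := hv ⟨(s 1).1, hm1⟩
      obtain ⟨c2, hc2⟩ := hv ⟨(s 2).1, hm2⟩
      have hc0' : ∀ i, (s 0).1 i = C c0 * v.1 i := by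
        intro i
        rw [← MvPolynomial.smul_eq_C_mul]
        exact (congrFun (congrArg Subtype.val hc0) i).symm
      have hc1' : ∀ i, (s 1).1 i = C c1 * v.1 i := by
        intro i
        rw [← MvPolynomial.smul_eq_C_mul]
        exact (congrFun (congrArg Subtype.val hc1) i).symm
      have hc2' : ∀ i, (s 2).1 i = C c2 * v.1 i := by
        intro i
        rw [← MvPolynomial.smul_eq_C_mul]
        exact (congrFun (congrArg Subtype.val hc2) i).symm
      have hvi : ∃ i, v.1 i ≠ 0 := by
        by_contra hcon2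
        push Not at hcon2
        apply hs0
        funext k
        apply Subtype.ext
        funext i
        fin_cases k
        · exact (hc0' i).trans (by rw [hcon2 i, mul_zero]; rfl)
        · exact (hc1' i).trans (by rw [hcon2 i, mul_zero]; rfl)
        · exact (hc2' i).trans (by rw [hcon2 i, mul_zero]; rfl)
      obtain ⟨i1, hi1⟩ := hvi
      have h2 := hrel i1
      rw [hc0' i1, hc1' i1, hc2' i1] at h2
      have h3 : (C c0 * (X 0 * X 0) + C c1 * (X 0 * X 1) + C c2 * (X 1 * X 1)) * v.1 i1 = 0 := by
        linear_combination h2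
      rcases mul_eq_zero.mp h3 with h4 | h4
      · obtain ⟨r0, r1, r2⟩ := quad_inj (a := c0) (b := c1) (c := c2) (a' := 0) (b' := 0)
          (c' := 0) (by simp only [C_0, zero_mul, add_zero]; exact h4)
        apply hs0
        funext k
        apply Subtype.ext
        funext i
        fin_cases k
        · exact (hc0' i).trans (by rw [r0, C_0, zero_mul]; rfl)
        · exact (hc1' i).trans (by rw [r1, C_0, zero_mul]; rfl)
        · exact (hc2' i).trans (by rw [r2, C_0, zero_mul]; rfl)
      · exact hi1 h4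
    have hK : (2 : ℝ) ≤ (Module.finrank ℂ N : ℝ) := by exact_mod_cast hcard
    rw [div_lt_div_iff₀ (by norm_num) (by norm_num)] at key
    have h1 : α * 2 ≤ α * (Module.finrank ℂ N : ℝ) :=
      mul_le_mul_of_nonneg_left hK (by linarith)
    have ha0 : (0 : ℝ) ≤ (a : ℝ) := Nat.cast_nonneg a
    simp only [Finset.univ_unique, Finset.sum_singleton] at key
    push_cast at key
    linarith

end

end Pool.Agent.Work.MP_3738f3_ag
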