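import Mathlib

set_option autoImplicit false

namespace Pool.Agent.Work.MP_3738f3_ag

open MvPolynomial

noncomputable section

/-- Homogeneous polynomials of integer degree `D` in two variables (zero when `D < 0`). -/
def HomZ (D : ℤ) : Submodule ℂ (MvPolynomial (Fin 2) ℂ) where
  carrier := {p | p.IsHomogeneous D.toNat ∧ (D < 0 → p = 0)}
  zero_mem' := ⟨isHomogeneous_zero _ _ _, fun _ => rfl⟩
  add_mem' := by
    intro a b ha hb
    exact ⟨ha.1.add hb.1, fun h => by rw [ha.2 h, hb.2 h, add_zero]⟩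
  smul_mem' := by
    intro c a ha
    refine ⟨?_, fun h => by rw [ha.2 h, smul_zero]⟩
    exact (homogeneousSubmodule (Fin 2) ℂ D.toNat).smul_mem c ha.1

theorem mem_HomZ {D : ℤ} {p : MvPolynomial (Fin 2) ℂ} :
    p ∈ HomZ D ↔ p.IsHomogeneous D.toNat ∧ (D < 0 → p = 0) := Iff.rfl

def degEquiv (n : ℕ) : Fin (n + 1) ≃ {d : Fin 2 →₀ ℕ | d.degree = n} where
  toFun i := ⟨Finsupp.single 0 (i : ℕ) + Finsupp.single 1 (n - (i : ℕ)), by
    have := i.2
    simp only [Set.mem_ofPred_eq, map_add, Finsupp.degree_single]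
    omega⟩
  invFun d := ⟨d.1 0, by
    have h := d.2
    simp only [Set.mem_ofPred_eq, Finsupp.degree_eq_sum, Fin.sum_univ_two] at h
    omega⟩
  left_inv i := by
    ext
    simp
  right_inv d := by
    obtain ⟨d, h⟩ := d
    have h' := h
    simp only [Set.mem_ofPred_eq, Finsupp.degree_eq_sum, Fin.sum_univ_two] at h'
    apply Subtype.ext
    ext j
    fin_cases j
    · simp
    · simp
      omega

theorem finrank_homogeneous (n : ℕ) :
    Module.finrank ℂ (homogeneousSubmodule (Fin 2) ℂ n) = n + 1 := by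
  rw [homogeneousSubmodule_eq_finsupp_supported]
  rw [LinearEquiv.finrank_eq (AddMonoidAlgebra.supportedEquivFinsupp (R := ℂ) (S := ℂ)
    {d : Fin 2 →₀ ℕ | d.degree = n})]
  have : Fintype {d : Fin 2 →₀ ℕ | d.degree = n} := Fintype.ofEquiv _ (degEquiv n)
  rw [Module.finrank_finsupp_self, Fintype.card_congr (degEquiv n).symm, Fintype.card_fin]

theorem finite_homogeneous (n : ℕ) :
    Module.Finite ℂ (homogeneousSubmodule (Fin 2) ℂ n) := by
  apply Module.finite_of_finrank_pos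
  rw [finrank_homogeneous]
  omega

theorem HomZ_of_nonneg {D : ℤ} (h : 0 ≤ D) :
    HomZ D = homogeneousSubmodule (Fin 2) ℂ D.toNat := by
  ext p
  rw [mem_HomZ, mem_homogeneousSubmodule]
  constructor
  · exact fun h => h.1
  · exact fun hp => ⟨hp, fun h' => absurd h' (not_lt.mpr h)⟩

theorem HomZ_of_neg {D : ℤ} (h : D < 0) : HomZ D = ⊥ := by
  ext p
  rw [mem_HomZ, Submodule.mem_bot]
  constructor
  · exact fun hp => hp.2 h
  · rintro rfl
    exact ⟨isHomogeneous_zero _ _ _, fun _ => rfl⟩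

theorem finrank_HomZ (D : ℤ) : Module.finrank ℂ (HomZ D) = (D + 1).toNat := by
  rcases lt_or_ge D 0 with h | h
  · rw [HomZ_of_neg h, finrank_bot]
    omega
  · rw [HomZ_of_nonneg h, finrank_homogeneous]
    omega

instance finite_HomZ (D : ℤ) : Module.Finite ℂ (HomZ D) := by
  rcases lt_or_ge D 0 with h | h
  · rw [HomZ_of_neg h]
    infer_instance
  · rw [HomZ_of_nonneg h]
    exact finite_homogeneous _

/-- Tuples of homogeneous polynomials with prescribed integer degrees. -/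
def Hsec {ι : Type*} (D : ι → ℤ) : Submodule ℂ (ι → MvPolynomial (Fin 2) ℂ) :=
  Submodule.pi Set.univ (fun j => HomZ (D j))

theorem mem_Hsec {ι : Type*} {D : ι → ℤ} {u : ι → MvPolynomial (Fin 2) ℂ} :
    u ∈ Hsec D ↔ ∀ j, (u j).IsHomogeneous (D j).toNat ∧ (D j < 0 → u j = 0) := by
  simp [Hsec, Submodule.mem_pi, mem_HomZ]

def HsecEquiv {ι : Type*} (D : ι → ℤ) : Hsec D ≃ₗ[ℂ] (∀ j, HomZ (D j)) where
  toFun u j := ⟨u.1 j, mem_Hsec.mp u.2 j⟩
  map_add' _ _ := rfl
  map_smul' _ _ := rfl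
  invFun v := ⟨fun j => (v j).1, mem_Hsec.mpr fun j => (v j).2⟩
  left_inv _ := rfl
  right_inv _ := rfl

instance finite_Hsec {ι : Type*} [Finite ι] (D : ι → ℤ) : Module.Finite ℂ (Hsec D) :=
  Module.Finite.equiv (HsecEquiv D).symm

theorem finrank_Hsec {ι : Type*} [Fintype ι] (D : ι → ℤ) :
    Module.finrank ℂ (Hsec D) = ∑ j, (D j + 1).toNat := by
  rw [LinearEquiv.finrank_eq (HsecEquiv D), Module.finrank_pi_fintype]
  simp [finrank_HomZ]

theorem mul_mem_HomZ {D D' E : ℤ} (hE : D + D' = E) {p q : MvPolynomial (Fin 2) ℂ}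
    (hp : p ∈ HomZ D) (hq : q ∈ HomZ D') : p * q ∈ HomZ E := by
  rcases lt_or_ge D 0 with h | h
  · rw [hp.2 h, zero_mul]; exact Submodule.zero_mem _
  rcases lt_or_ge D' 0 with h' | h'
  · rw [hq.2 h', mul_zero]; exact Submodule.zero_mem _
  refine ⟨?_, fun h'' => by omega⟩
  have : E.toNat = D.toNat + D'.toNat := by omega
  rw [this]
  exact hp.1.mul hq.1

end

end Pool.Agent.Work.MP_3738f3_ag
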