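import Pool.Agent.Work.MP_3738f3_ag.Exist

set_option autoImplicit false

namespace Pool.Agent.Work.MP_3738f3_ag

open MvPolynomial

noncomputable section

theorem xx_mem : (xx : MvPolynomial (Fin 2) ℂ) ∈ HomZ 1 :=
  ⟨isHomogeneous_X _ _, by norm_num⟩

theorem yy_mem : (yy : MvPolynomial (Fin 2) ℂ) ∈ HomZ 1 :=
  ⟨isHomogeneous_X _ _, by norm_num⟩

/-- First test system: type `(3,6,1)`. -/
def f1 : Fin 3 → ℤ := ![2, 2, 2]

def w1 : Fin 1 → Fin 3 → MvPolynomial (Fin 2) ℂ := ![![xx * xx, xx * yy, yy * yy]]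

theorem w1_mem : ∀ a l, w1 a l ∈ HomZ (f1 l) := by
  intro a l
  fin_cases a
  fin_cases l
  · exact mul_mem_HomZ (by norm_num [f1]) xx_mem xx_mem
  · exact mul_mem_HomZ (by norm_num [f1]) xx_mem yy_mem
  · exact mul_mem_HomZ (by norm_num [f1]) yy_mem yy_mem

theorem cert1 (φ : Fin 11 → Fin 3 → MvPolynomial (Fin 2) ℂ)
    (hφ : ∀ i l, φ i l ∈ HomZ (e0 i - f1 l))
    (hV : ∀ a, (fun i => ∑ l, φ i l * w1 a l) ∈ V0) : φ = 0 := by
  obtain ⟨c, hc⟩ := hV 0
  have hr : ∀ (i : Fin 8) l, φ (Fin.natAdd 3 i) l = 0 := by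
    intro i l
    have := hφ (Fin.natAdd 3 i) l
    rw [e0_right] at this
    apply this.2
    fin_cases l <;> norm_num [f1]
  have hc0 : c = 0 := by
    apply secs_zero_of
    intro i
    rw [hc]
    simp [hr]
  subst hc0
  rw [map_zero] at hc
  funext i l
  refine Fin.addCases (m := 3) (n := 8) (fun i => ?_) (fun i => ?_) i
  · have hi := congrFun hc (Fin.castAdd 8 i)
    have hcst : ∀ l, ∃ t, φ (Fin.castAdd 8 i) l = C t := by
      intro l
      apply HomZ_zero_const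
      have := hφ (Fin.castAdd 8 i) l
      rw [e0_left] at this
      have h2 : (2 : ℤ) - f1 l = 0 := by fin_cases l <;> norm_num [f1]
      rwa [h2] at this
    obtain ⟨t0, h0⟩ := hcst 0
    obtain ⟨t1, h1⟩ := hcst 1
    obtain ⟨t2, h2⟩ := hcst 2
    have h3 : C t0 * (xx * xx) + C t1 * (xx * yy) + C t2 * (yy * yy) =
        C 0 * (xx * xx) + C 0 * (xx * yy) + C 0 * (yy * yy) := by
      simp only [Fin.sum_univ_three, h0, h1, h2] at hi
      simp only [w1, Matrix.cons_val_zero, Matrix.cons_val_one, Matrix.cons_val_two,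
        Matrix.cons_val_fin_one, Pi.zero_apply] at hi
      simp only [C_0, zero_mul, add_zero]
      exact hi.symm
    obtain ⟨r0, r1, r2⟩ := quad_inj h3
    fin_cases l
    · simp [h0, r0]
    · simp [h1, r1]
    · simp [h2, r2]
  · exact hr i l

/-- Second test system: type `(7,11,6)`. -/
def f2 : Fin 7 → ℤ := ![2, 2, 2, 2, 1, 1, 1]

def w2 : Fin 6 → Fin 7 → MvPolynomial (Fin 2) ℂ :=
  ![![0, 0, 0, xx * xx, xx, 0, 0],
    ![0, 0, 0, xx * yy, 0, xx, 0],
    ![0, 0, 0, yy * yy, 0, 0, xx],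
    ![-(xx * xx), 0, 0, 0, yy, 0, 0],
    ![0, -(xx * xx), 0, 0, 0, yy, 0],
    ![0, 0, -(xx * xx), 0, 0, 0, yy]]

theorem w2_mem : ∀ a l, w2 a l ∈ HomZ (f2 l) := by
  have hxx : xx * xx ∈ HomZ 2 := mul_mem_HomZ (by norm_num) xx_mem xx_mem
  have hxy : xx * yy ∈ HomZ 2 := mul_mem_HomZ (by norm_num) xx_mem yy_mem
  have hyy : yy * yy ∈ HomZ 2 := mul_mem_HomZ (by norm_num) yy_mem yy_mem
  have hx := xx_mem
  have hy := yy_mem
  intro a l
  fin_cases a <;> fin_cases l <;>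
    first
    | exact Submodule.zero_mem _
    | exact hxx
    | exact hxy
    | exact hyy
    | exact hx
    | exact hy
    | exact Submodule.neg_mem _ hxx

theorem cert2 (φ : Fin 11 → Fin 7 → MvPolynomial (Fin 2) ℂ)
    (hφ : ∀ i l, φ i l ∈ HomZ (e0 i - f2 l))
    (hV : ∀ a, (fun i => ∑ l, φ i l * w2 a l) ∈ V0) : φ = 0 := by
  -- shapes of the entries
  have hl2 : ∀ (i : Fin 3) (l : Fin 7), f2 l = 2 → ∃ t, φ (Fin.castAdd 8 i) l = C t := by
    intro i l hl
    apply HomZ_zero_const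
    have := hφ (Fin.castAdd 8 i) l
    rwa [e0_left, hl, sub_self] at this
  have hl1 : ∀ (i : Fin 3) (l : Fin 7), f2 l = 1 →
      ∃ a b, φ (Fin.castAdd 8 i) l = C a * xx + C b * yy := by
    intro i l hl
    apply HomZ_one_lin
    have := hφ (Fin.castAdd 8 i) l
    rwa [e0_left, hl, show (2 : ℤ) - 1 = 1 from rfl] at this
  have hr2 : ∀ (i : Fin 8) (l : Fin 7), f2 l = 2 → φ (Fin.natAdd 3 i) l = 0 := by
    intro i l hl
    have := hφ (Fin.natAdd 3 i) l
    rw [e0_right, hl] at this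
    exact this.2 (by norm_num)
  have hr1 : ∀ (i : Fin 8) (l : Fin 7), f2 l = 1 → ∃ t, φ (Fin.natAdd 3 i) l = C t := by
    intro i l hl
    apply HomZ_zero_const
    have := hφ (Fin.natAdd 3 i) l
    rwa [e0_right, hl, sub_self] at this
  -- the y-equations: a section `-x^2 p + y q` in `V0` forces `p = 0`, and `q = 0` on the left
  have key1 : ∀ (l l' : Fin 7), f2 l = 2 → f2 l' = 1 →
      (fun i => φ i l * (-(xx * xx)) + φ i l' * yy) ∈ V0 →
      (∀ i : Fin 3, φ (Fin.castAdd 8 i) l = 0) ∧ (∀ i : Fin 3, φ (Fin.castAdd 8 i) l' = 0) := by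
    rintro l l' hl hl' ⟨c, hc⟩
    have hc1 : ∀ i : Fin 8, c (Fin.castAdd 8 i) = 0 := by
      intro i
      have h := congrFun hc (Fin.natAdd 3 i)
      obtain ⟨t, ht⟩ := hr1 i l' hl'
      rw [secs_right] at h
      simp only [hr2 i l hl, ht, zero_mul, zero_add] at h
      exact (lin_inj (a' := 0) (b' := t) (by rw [h]; simp)).1
    have hlam : ∀ i j, lamMat c i j = 0 := by
      have h0 := hc1 0
      have h1 := hc1 1
      have h2 := hc1 2
      have h3 := hc1 3
      have h4 := hc1 4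
      have h5 := hc1 5
      have h6 := hc1 6
      have h7 := hc1 7
      simp only [Fin.castAdd, Fin.castLE] at h0 h1 h2 h3 h4 h5 h6 h7
      change c 0 = 0 at h0
      change c 1 = 0 at h1
      change c 2 = 0 at h2
      change c 3 = 0 at h3
      change c 4 = 0 at h4
      change c 5 = 0 at h5
      change c 6 = 0 at h6
      change c 7 = 0 at h7
      intro i j
      fin_cases i <;> fin_cases j <;> simp [lamMat, h0, h1, h2, h3, h4, h5, h6, h7]
    have h : ∀ i : Fin 3, φ (Fin.castAdd 8 i) l = 0 ∧ φ (Fin.castAdd 8 i) l' = 0 := by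
      intro i
      have h := congrFun hc (Fin.castAdd 8 i)
      obtain ⟨t, ht⟩ := hl2 i l hl
      obtain ⟨a, b, hab⟩ := hl1 i l' hl'
      rw [secs_left] at h
      simp only [hlam, ht, hab, C_0, zero_mul, add_zero] at h
      have h2 := quad_inj (a := -t) (b := a) (c := b) (a' := 0) (b' := 0) (c' := 0) (by
        simp only [C_0, zero_mul, add_zero, C_neg]
        rw [h]
        ring)
      obtain ⟨h3, h4, h5⟩ := h2
      rw [ht, hab, h4, h5, neg_eq_zero.mp h3]
      simp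
    exact ⟨fun i => (h i).1, fun i => (h i).2⟩
  have e3 := hV 3
  have e4 := hV 4
  have e5 := hV 5
  have e0' := hV 0
  have e1 := hV 1
  have e2 := hV 2
  simp only [Fin.sum_univ_seven] at e0' e1 e2 e3 e4 e5
  simp only [w2, Matrix.cons_val, mul_zero, add_zero, zero_add] at e0' e1 e2 e3 e4 e5
  obtain ⟨p0, q0⟩ := key1 0 4 rfl rfl e3
  obtain ⟨p1, q1⟩ := key1 1 5 rfl rfl e4
  obtain ⟨p2, q2⟩ := key1 2 6 rfl rfl e5
  obtain ⟨t0, ht0⟩ := hl2 0 3 rfl
  obtain ⟨t1, ht1⟩ := hl2 1 3 rfl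
  obtain ⟨t2, ht2⟩ := hl2 2 3 rfl
  -- the x-equations
  have key2 : ∀ (l' : Fin 7) (a b d : ℂ), f2 l' = 1 →
      (∀ i : Fin 3, φ (Fin.castAdd 8 i) l' = 0) →
      (fun i => φ i 3 * (C a * (xx * xx) + C b * (xx * yy) + C d * (yy * yy)) + φ i l' * xx)
        ∈ V0 → ∃ c : Fin 16 → ℂ, (∀ i : Fin 3, ∀ t, φ (Fin.castAdd 8 i) 3 = C t →
          lamMat c i 0 = t * a ∧ lamMat c i 1 = t * b ∧ lamMat c i 2 = t * d) ∧
          ∀ i : Fin 8, φ (Fin.natAdd 3 i) l' = C (c (Fin.castAdd 8 i)) := by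
    rintro l' a b d hl' hq ⟨c, hc⟩
    refine ⟨c, ?_, ?_⟩
    · intro i t ht
      have h := congrFun hc (Fin.castAdd 8 i)
      rw [secs_left] at h
      simp only [hq i, ht, zero_mul, add_zero] at h
      apply quad_inj
      rw [h]
      simp only [C_mul]
      ring
    · intro i
      have h := congrFun hc (Fin.natAdd 3 i)
      obtain ⟨t, ht⟩ := hr1 i l' hl'
      rw [secs_right] at h
      simp only [hr2 i 3 rfl, ht, zero_mul, zero_add] at h
      have h5 : c (Fin.castAdd 8 i) = t :=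
        (lin_inj (a' := t) (b' := 0) (by rw [h]; simp)).1
      rw [ht, h5]
  obtain ⟨c0, hc0, hd0⟩ := key2 4 1 0 0 rfl q0 (by simpa using e0')
  obtain ⟨c1, hc1, hd1⟩ := key2 5 0 1 0 rfl q1 (by simpa using e1)
  obtain ⟨c2, hc2, hd2⟩ := key2 6 0 0 1 rfl q2 (by simpa using e2)
  have a00 := hc0 0 t0 ht0
  have a01 := hc0 1 t1 ht1
  have a02 := hc0 2 t2 ht2
  have a10 := hc1 0 t0 ht0
  have a11 := hc1 1 t1 ht1
  have a12 := hc1 2 t2 ht2
  have a20 := hc2 0 t0 ht0
  have a21 := hc2 1 t1 ht1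
  have a22 := hc2 2 t2 ht2
  simp only [lamMat, Matrix.cons_val, mul_zero, mul_one] at a00 a01 a02 a10 a11 a12 a20 a21 a22
  obtain ⟨b1, b2, b3⟩ := a00
  obtain ⟨b4, b5, b6⟩ := a01
  obtain ⟨b7, b8, b9⟩ := a02
  obtain ⟨d1, d2, d3⟩ := a10
  obtain ⟨d4, d5, d6⟩ := a11
  obtain ⟨d7, d8, d9⟩ := a12
  obtain ⟨g1, g2, g3⟩ := a20
  obtain ⟨g4, g5, g6⟩ := a21
  obtain ⟨g7, g8, g9⟩ := a22
  have z0 : t0 = 0 := by linear_combination -b1 - b9 - b5
  have z1 : t1 = 0 := by linear_combination -d5 - d9 - d1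
  have z2 : t2 = 0 := by linear_combination -g1 - g9 - g5
  have hleft : ∀ (i : Fin 3) (l : Fin 7), φ (Fin.castAdd 8 i) l = 0 := by
    intro i l
    fin_cases l
    · exact p0 i
    · exact p1 i
    · exact p2 i
    · fin_cases i
      · exact ht0.trans (by rw [z0, C_0])
      · exact ht1.trans (by rw [z1, C_0])
      · exact ht2.trans (by rw [z2, C_0])
    · exact q0 i
    · exact q1 i
    · exact q2 i
  have hcs0 : ∀ i : Fin 8, c0 (Fin.castAdd 8 i) = 0 := by
    intro i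
    rw [z0] at b1
    rw [z1] at b4
    rw [z2] at b7
    fin_cases i
    · exact b1
    · exact b2
    · exact b3
    · exact b4
    · exact b5
    · exact b6
    · exact b7
    · exact b8
  have hcs1 : ∀ i : Fin 8, c1 (Fin.castAdd 8 i) = 0 := by
    intro i
    rw [z0] at d2
    rw [z1] at d5
    rw [z2] at d8
    fin_cases i
    · exact d1
    · exact d2
    · exact d3
    · exact d4
    · exact d5
    · exact d6
    · exact d7
    · exact d8
  have hcs2 : ∀ i : Fin 8, c2 (Fin.castAdd 8 i) = 0 := by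
    intro i
    rw [z0] at g3
    rw [z1] at g6
    fin_cases i
    · exact g1
    · exact g2
    · exact g3
    · exact g4
    · exact g5
    · exact g6
    · exact g7
    · exact g8
  funext i l
  refine Fin.addCases (m := 3) (n := 8) (fun i => ?_) (fun i => ?_) i
  · exact hleft i l
  · fin_cases l
    · exact hr2 i 0 rfl
    · exact hr2 i 1 rfl
    · exact hr2 i 2 rfl
    · exact hr2 i 3 rfl
    · exact (hd0 i).trans (by rw [hcs0, C_0]; rfl)
    · exact (hd1 i).trans (by rw [hcs1, C_0]; rfl)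
    · exact (hd2 i).trans (by rw [hcs2, C_0]; rfl)

end

end Pool.Agent.Work.MP_3738f3_ag
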