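import Pool.Agent.Work.MP_3738f3_ag.Basic

set_option autoImplicit false

namespace Pool.Agent.Work.MP_3738f3_ag

open MvPolynomial

noncomputable section

/-- Multiplication by a polynomial matrix, as a complex linear map. -/
def mulM {ι κ : Type*} [Fintype κ] (M : ι → κ → MvPolynomial (Fin 2) ℂ) :
    (κ → MvPolynomial (Fin 2) ℂ) →ₗ[ℂ] (ι → MvPolynomial (Fin 2) ℂ) where
  toFun u := fun i => ∑ j, M i j * u j
  map_add' u v := by
    funext i
    simp [mul_add, Finset.sum_add_distrib]
  map_smul' c u := by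
    funext i
    simp [Finset.smul_sum]

theorem mulM_apply {ι κ : Type*} [Fintype κ] (M : ι → κ → MvPolynomial (Fin 2) ℂ)
    (u : κ → MvPolynomial (Fin 2) ℂ) (i : ι) : mulM M u i = ∑ j, M i j * u j := rfl

theorem mulM_eq_zero {ι κ : Type*} [Fintype κ] {M : ι → κ → MvPolynomial (Fin 2) ℂ}
    (hM : LinearIndependent (MvPolynomial (Fin 2) ℂ) (fun j : κ => fun i : ι => M i j))
    {u : κ → MvPolynomial (Fin 2) ℂ} (hu : ∀ i, ∑ j, M i j * u j = 0) : u = 0 := by
  rw [Fintype.linearIndependent_iff] at hM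
  funext j
  apply hM u
  funext i
  simp only [Finset.sum_apply, Pi.smul_apply, smul_eq_mul, Pi.zero_apply]
  rw [← hu i]
  exact Finset.sum_congr rfl fun j _ => mul_comm _ _

theorem mulM_injective {ι κ : Type*} [Fintype κ] {M : ι → κ → MvPolynomial (Fin 2) ℂ}
    (hM : LinearIndependent (MvPolynomial (Fin 2) ℂ) (fun j : κ => fun i : ι => M i j)) :
    Function.Injective (mulM M) := by
  rw [← LinearMap.ker_eq_bot, LinearMap.ker_eq_bot']
  intro u hu
  exact mulM_eq_zero hM fun i => congrFun hu i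

/-- The space of sections of the subsheaf given by `(b, M)`. -/
theorem span_eq_map {n m : ℕ} (b : Fin m → ℤ) (M : Fin n → Fin m → MvPolynomial (Fin 2) ℂ) :
    Submodule.span ℂ {s : Fin n → MvPolynomial (Fin 2) ℂ |
      ∃ u : Fin m → MvPolynomial (Fin 2) ℂ,
        (∀ j, (u j).IsHomogeneous (b j).toNat ∧ (b j < 0 → u j = 0)) ∧
        s = fun i => ∑ j, M i j * u j} = (Hsec b).map (mulM M) := by
  apply le_antisymm
  · rw [Submodule.span_le]
    rintro s ⟨u, hu, rfl⟩
    exact ⟨u, mem_Hsec.mpr hu, rfl⟩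
  · rintro s ⟨u, hu, rfl⟩
    exact Submodule.subset_span ⟨u, mem_Hsec.mp hu, rfl⟩

theorem count {n m r p : ℕ} (e : Fin n → ℤ) (V : Submodule ℂ (Fin n → MvPolynomial (Fin 2) ℂ))
    (f : Fin r → ℤ) (w : Fin p → Fin r → MvPolynomial (Fin 2) ℂ)
    (hw : ∀ a l, w a l ∈ HomZ (f l))
    (hC : ∀ φ : Fin n → Fin r → MvPolynomial (Fin 2) ℂ, (∀ i l, φ i l ∈ HomZ (e i - f l)) →
      (∀ a, (fun i => ∑ l, φ i l * w a l) ∈ V) → φ = 0)
    (b : Fin m → ℤ) (M : Fin n → Fin m → MvPolynomial (Fin 2) ℂ)
    (hMh : ∀ i j, M i j ∈ HomZ (e i - b j))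
    (hM : LinearIndependent (MvPolynomial (Fin 2) ℂ) (fun j : Fin m => fun i : Fin n => M i j)) :
    (∑ j, ∑ l, (b j - f l + 1).toNat) +
      p * Module.finrank ℂ ↥(V ⊓ (Hsec b).map (mulM M)) ≤ p * ∑ j, (b j + 1).toNat := by
  classical
  -- the preimage of `V` in the sections of the subsheaf
  let W : Submodule ℂ (Hsec b) := (V.comap (mulM M)).comap (Hsec b).subtype
  have hW : Module.finrank ℂ ↥(V ⊓ (Hsec b).map (mulM M)) = Module.finrank ℂ W := by
    have h1 : V ⊓ (Hsec b).map (mulM M) = W.map ((mulM M) ∘ₗ (Hsec b).subtype) := by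
      ext s
      constructor
      · rintro ⟨hs, u, hu, rfl⟩
        exact ⟨⟨u, hu⟩, hs, rfl⟩
      · rintro ⟨u, hu, rfl⟩
        exact ⟨hu, u.1, u.2, rfl⟩
    rw [h1]
    have hinj : Function.Injective ((mulM M) ∘ₗ (Hsec b).subtype) := by
      intro x y h
      exact Subtype.ext (mulM_injective hM h)
    exact LinearEquiv.finrank_eq (Submodule.equivMapOfInjective _ hinj W).symm
  rw [hW]
  -- degrees of homomorphisms from the test bundle
  let D : Fin m × Fin r → ℤ := fun x => b x.1 - f x.2
  have hsec : ∀ (χ : Hsec D) (a : Fin p), (fun j => ∑ l, χ.1 (j, l) * w a l) ∈ Hsec b := by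
    intro χ a
    rw [mem_Hsec]
    intro j
    have : (∑ l, χ.1 (j, l) * w a l) ∈ HomZ (b j) := by
      apply Submodule.sum_mem
      intro l _
      exact mul_mem_HomZ (by simp [D]) (mem_Hsec.mp χ.2 (j, l)) (hw a l)
    exact this
  let Γ : Hsec D →ₗ[ℂ] (Fin p → (Hsec b ⧸ W)) :=
    { toFun := fun χ a => W.mkQ ⟨fun j => ∑ l, χ.1 (j, l) * w a l, hsec χ a⟩
      map_add' := by
        intro χ χ'
        funext a
        rw [Pi.add_apply, ← map_add]
        congr 1
        apply Subtype.ext
        funext j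
        simp [add_mul, Finset.sum_add_distrib]
      map_smul' := by
        intro c χ
        funext a
        rw [Pi.smul_apply, ← map_smul]
        congr 1
        apply Subtype.ext
        funext j
        simp [Finset.smul_sum] }
  have hΓ : Function.Injective Γ := by
    rw [← LinearMap.ker_eq_bot, LinearMap.ker_eq_bot']
    intro χ hχ
    have hχ' : ∀ a, mulM M (fun j => ∑ l, χ.1 (j, l) * w a l) ∈ V := by
      intro a
      have := congrFun hχ a
      simp only [Pi.zero_apply] at this
      have h2 : W.mkQ ⟨fun j => ∑ l, χ.1 (j, l) * w a l, hsec χ a⟩ = 0 := this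
      rw [Submodule.mkQ_apply, Submodule.Quotient.mk_eq_zero] at h2
      exact h2
    have hφ := hC (fun i l => ∑ j, M i j * χ.1 (j, l)) (by
        intro i l
        apply Submodule.sum_mem
        intro j _
        exact mul_mem_HomZ (by simp [D]) (hMh i j) (mem_Hsec.mp χ.2 (j, l)))
      (by
        intro a
        have := hχ' a
        convert this using 1
        funext i
        rw [mulM_apply]
        simp only [Finset.sum_mul, Finset.mul_sum]
        rw [Finset.sum_comm]
        exact Finset.sum_congr rfl fun j _ => Finset.sum_congr rfl fun l _ => by ring)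
    apply Subtype.ext
    funext ⟨j, l⟩
    have h3 : (fun j => χ.1 (j, l)) = 0 := by
      apply mulM_eq_zero hM
      intro i
      exact congrFun (congrFun hφ i) l
    exact congrFun h3 j
  have hfree : Module.Free ℂ (Hsec b ⧸ W) := Module.Free.of_divisionRing ℂ _
  have h4 := LinearMap.finrank_le_finrank_of_injective hΓ
  rw [finrank_Hsec, Module.finrank_pi_fintype, Finset.sum_const, Finset.card_univ,
    Fintype.card_fin, smul_eq_mul, Fintype.sum_prod_type] at h4
  have h5 := Submodule.finrank_quotient_add_finrank W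
  rw [finrank_Hsec] at h5
  rw [← h5, mul_add]
  exact Nat.add_le_add_right h4 _

end

end Pool.Agent.Work.MP_3738f3_ag
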