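import Pool.Agent.Work.MP_3738f3_ag.Count

set_option autoImplicit false

namespace Pool.Agent.Work.MP_3738f3_ag

open MvPolynomial

noncomputable section


abbrev xx : MvPolynomial (Fin 2) ℂ := X 0
abbrev yy : MvPolynomial (Fin 2) ℂ := X 1

theorem quad_inj {a b c a' b' c' : ℂ}
    (h : C a * (xx * xx) + C b * (xx * yy) + C c * (yy * yy) =
      C a' * (xx * xx) + C b' * (xx * yy) + C c' * (yy * yy)) : a = a' ∧ b = b' ∧ c = c' := by
  have h1 := congrArg (eval ![1, 0]) h
  have h2 := congrArg (eval ![0, 1]) h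
  have h3 := congrArg (eval ![1, 1]) h
  simp at h1 h2 h3
  subst h1 h2
  refine ⟨rfl, ?_, rfl⟩
  linear_combination h3

theorem lin_inj {a b a' b' : ℂ}
    (h : C a * xx + C b * yy = C a' * xx + C b' * yy) : a = a' ∧ b = b' := by
  have h1 := congrArg (eval ![1, 0]) h
  have h2 := congrArg (eval ![0, 1]) h
  simp at h1 h2
  exact ⟨h1, h2⟩

theorem HomZ_zero_const {p : MvPolynomial (Fin 2) ℂ} (hp : p ∈ HomZ 0) : ∃ c, p = C c := by
  have h := hp.1
  rw [Int.toNat_zero, ← totalDegree_zero_iff_isHomogeneous, totalDegree_eq_zero_iff_eq_C] at h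
  exact ⟨_, h⟩

theorem HomZ_one_lin {p : MvPolynomial (Fin 2) ℂ} (hp : p ∈ HomZ 1) :
    ∃ a b, p = C a * xx + C b * yy := by
  have h : p ∈ homogeneousSubmodule (Fin 2) ℂ 1 := hp.1
  rw [homogeneousSubmodule_one_eq_span_X] at h
  have h2 : (Set.range (X : Fin 2 → MvPolynomial (Fin 2) ℂ)) = {xx, yy} := by
    ext q
    simp [Fin.exists_fin_two, eq_comm]
  rw [h2, Submodule.mem_span_pair] at h
  obtain ⟨a, b, h⟩ := h
  exact ⟨a, b, by rw [← h, MvPolynomial.smul_eq_C_mul, MvPolynomial.smul_eq_C_mul]⟩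

/-- The splitting type `O(2)^3 + O(1)^8`. -/
def e0 : Fin 11 → ℤ := Fin.append (fun _ : Fin 3 => 2) (fun _ : Fin 8 => 1)

/-- The traceless matrix with prescribed entries. -/
def lamMat (c : Fin 16 → ℂ) : Fin 3 → Fin 3 → ℂ :=
  ![![c 0, c 1, c 2], ![c 3, c 4, c 5], ![c 6, c 7, -(c 0 + c 4)]]

def secs : (Fin 16 → ℂ) →ₗ[ℂ] (Fin 11 → MvPolynomial (Fin 2) ℂ) where
  toFun c := Fin.append
    (fun i : Fin 3 => C (lamMat c i 0) * (xx * xx) + C (lamMat c i 1) * (xx * yy) +
      C (lamMat c i 2) * (yy * yy))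
    (fun i : Fin 8 => C (c (Fin.castAdd 8 i)) * xx + C (c (Fin.natAdd 8 i)) * yy)
  map_add' c d := by
    funext i
    refine Fin.addCases (m := 3) (n := 8) (fun i => ?_) (fun i => ?_) i
    · rw [Pi.add_apply, Fin.append_left, Fin.append_left, Fin.append_left]
      have : ∀ j, lamMat (c + d) i j = lamMat c i j + lamMat d i j := by
        intro j
        fin_cases i <;> fin_cases j <;> simp [lamMat]
        ring
      simp only [this, C_add]
      ring
    · rw [Pi.add_apply, Fin.append_right, Fin.append_right, Fin.append_right]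
      simp only [Pi.add_apply, C_add]
      ring
  map_smul' t c := by
    funext i
    refine Fin.addCases (m := 3) (n := 8) (fun i => ?_) (fun i => ?_) i
    · rw [Pi.smul_apply, Fin.append_left, Fin.append_left]
      have : ∀ j, lamMat (t • c) i j = t * lamMat c i j := by
        intro j
        fin_cases i <;> fin_cases j <;> simp [lamMat]
        ring
      simp only [this, C_mul, RingHom.id_apply, MvPolynomial.smul_eq_C_mul]
      ring
    · rw [Pi.smul_apply, Fin.append_right, Fin.append_right]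
      simp only [Pi.smul_apply, smul_eq_mul, C_mul, RingHom.id_apply, MvPolynomial.smul_eq_C_mul]
      ring

theorem secs_left (c : Fin 16 → ℂ) (i : Fin 3) :
    secs c (Fin.castAdd 8 i) = C (lamMat c i 0) * (xx * xx) + C (lamMat c i 1) * (xx * yy) +
      C (lamMat c i 2) * (yy * yy) := by
  rw [secs, LinearMap.coe_mk, AddHom.coe_mk, Fin.append_left]

theorem secs_right (c : Fin 16 → ℂ) (i : Fin 8) :
    secs c (Fin.natAdd 3 i) = C (c (Fin.castAdd 8 i)) * xx + C (c (Fin.natAdd 8 i)) * yy := by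
  rw [secs, LinearMap.coe_mk, AddHom.coe_mk, Fin.append_right]

theorem e0_left (i : Fin 3) : e0 (Fin.castAdd 8 i) = 2 := by
  rw [e0, Fin.append_left]

theorem e0_right (i : Fin 8) : e0 (Fin.natAdd 3 i) = 1 := by
  rw [e0, Fin.append_right]

/-- The space of sections. -/
def V0 : Submodule ℂ (Fin 11 → MvPolynomial (Fin 2) ℂ) := LinearMap.range secs

theorem secs_zero_of {c : Fin 16 → ℂ} (h : ∀ i : Fin 8, secs c (Fin.natAdd 3 i) = 0) : c = 0 := by
  have h1 : ∀ i : Fin 8, c (Fin.castAdd 8 i) = 0 ∧ c (Fin.natAdd 8 i) = 0 := by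
    intro i
    have := h i
    rw [secs_right] at this
    exact lin_inj (by rw [this]; simp)
  funext i
  refine Fin.addCases (m := 8) (n := 8) (fun i => ?_) (fun i => ?_) i
  · exact (h1 i).1
  · exact (h1 i).2

theorem secs_injective : Function.Injective secs := by
  rw [← LinearMap.ker_eq_bot, LinearMap.ker_eq_bot']
  intro c hc
  apply secs_zero_of
  intro i
  rw [hc]
  rfl

theorem finrank_V0 : Module.finrank ℂ V0 = 16 := by
  rw [V0, LinearMap.finrank_range_of_inj secs_injective]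
  simp

theorem V0_hom : ∀ s ∈ V0, ∀ i, (s i).IsHomogeneous (e0 i).toNat ∧ (e0 i < 0 → s i = 0) := by
  rintro s ⟨c, rfl⟩ i
  refine Fin.addCases (m := 3) (n := 8) (fun i => ?_) (fun i => ?_) i
  · rw [e0_left, secs_left]
    refine ⟨?_, by norm_num⟩
    have hx : (xx : MvPolynomial (Fin 2) ℂ).IsHomogeneous 1 := isHomogeneous_X _ _
    have hy : (yy : MvPolynomial (Fin 2) ℂ).IsHomogeneous 1 := isHomogeneous_X _ _
    exact ((IsHomogeneous.C_mul (hx.mul hx) _).add (IsHomogeneous.C_mul (hx.mul hy) _)).add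
      (IsHomogeneous.C_mul (hy.mul hy) _)
  · rw [e0_right, secs_right]
    refine ⟨?_, by norm_num⟩
    have hx : (xx : MvPolynomial (Fin 2) ℂ).IsHomogeneous 1 := isHomogeneous_X _ _
    have hy : (yy : MvPolynomial (Fin 2) ℂ).IsHomogeneous 1 := isHomogeneous_X _ _
    exact (IsHomogeneous.C_mul hx _).add (IsHomogeneous.C_mul hy _)

end

end Pool.Agent.Work.MP_3738f3_ag
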