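import Pool.Agent.Work.MP_3738f3_ag.Count

set_option autoImplicit false

namespace Pool.Agent.Work.MP_3738f3_ag

open MvPolynomial

noncomputable section

/-- The scaling homomorphism. -/
def scal : MvPolynomial (Fin 2) ℂ →ₐ[ℂ] Polynomial (MvPolynomial (Fin 2) ℂ) :=
  aeval (fun i => Polynomial.C (X i) * Polynomial.X)

theorem scal_monomial (d : Fin 2 →₀ ℕ) (r : ℂ) :
    scal (monomial d r) = Polynomial.monomial d.degree (monomial d r) := by
  rw [scal, aeval_monomial, ← Polynomial.C_mul_X_pow_eq_monomial]
  have h1 : (d.prod fun i k => (Polynomial.C (X i : MvPolynomial (Fin 2) ℂ) * Polynomial.X) ^ k) =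
      Polynomial.C (d.prod fun i k => (X i : MvPolynomial (Fin 2) ℂ) ^ k) *
        Polynomial.X ^ d.degree := by
    simp only [mul_pow, Finsupp.prod_mul]
    congr 1
    · rw [Finsupp.prod, Finsupp.prod, map_prod]
      simp
    · rw [Finsupp.prod, Finset.prod_pow_eq_pow_sum, Finsupp.degree_apply]
  rw [h1, ← mul_assoc]
  congr 1
  rw [monomial_eq, Polynomial.C_mul]
  rfl

theorem scal_coeff (φ : MvPolynomial (Fin 2) ℂ) (n : ℕ) :
    (scal φ).coeff n = homogeneousComponent n φ := by
  induction φ using MvPolynomial.induction_on' with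
  | monomial d r =>
    rw [scal_monomial, Polynomial.coeff_monomial]
    split_ifs with h
    · rw [homogeneousComponent_of_mem (m := n) (n := d.degree)
        (isHomogeneous_monomial r rfl)]
      rw [if_pos h.symm]
    · rw [homogeneousComponent_of_mem (m := n) (n := d.degree)
        (isHomogeneous_monomial r rfl)]
      rw [if_neg (Ne.symm h)]
  | add p q hp hq => rw [map_add, Polynomial.coeff_add, hp, hq, map_add]

theorem scal_ne_zero {φ : MvPolynomial (Fin 2) ℂ} (h : φ ≠ 0) : scal φ ≠ 0 := by
  intro h0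
  apply h
  rw [← sum_homogeneousComponent φ]
  apply Finset.sum_eq_zero
  intro n _
  rw [← scal_coeff, h0, Polynomial.coeff_zero]

theorem hom_of_trailing {φ : MvPolynomial (Fin 2) ℂ}
    (h : (scal φ).natTrailingDegree = (scal φ).natDegree) :
    φ.IsHomogeneous (scal φ).natDegree := by
  have : φ = homogeneousComponent (scal φ).natDegree φ := by
    conv_lhs => rw [← sum_homogeneousComponent φ]
    rw [Finset.sum_eq_single (scal φ).natDegree]
    · intro n _ hn
      rw [← scal_coeff]
      rcases lt_or_gt_of_ne hn with h1 | h1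
      · exact Polynomial.coeff_eq_zero_of_lt_natTrailingDegree (h ▸ h1)
      · exact Polynomial.coeff_eq_zero_of_natDegree_lt h1
    · intro hn
      apply homogeneousComponent_eq_zero
      simp at hn
      omega
  rw [this]
  have h2 := homogeneousComponent_isHomogeneous (scal φ).natDegree φ
  rwa [← this] at h2 ⊢

theorem hom_of_mul {p q : MvPolynomial (Fin 2) ℂ} {n : ℕ} (hp : p ≠ 0) (hq : q ≠ 0)
    (h : (p * q).IsHomogeneous n) :
    ∃ a b, p.IsHomogeneous a ∧ q.IsHomogeneous b ∧ a + b = n := by
  have hP := scal_ne_zero hp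
  have hQ := scal_ne_zero hq
  have hPQ : scal (p * q) = Polynomial.monomial n (p * q) := by
    ext1 k
    rw [scal_coeff, Polynomial.coeff_monomial, homogeneousComponent_of_mem h]
    simp [eq_comm]
  have hpq : p * q ≠ 0 := mul_ne_zero hp hq
  have h1 : (scal p).natDegree + (scal q).natDegree = n := by
    rw [← Polynomial.natDegree_mul hP hQ, ← map_mul, hPQ, Polynomial.natDegree_monomial_eq _ hpq]
  have h2 : (scal p).natTrailingDegree + (scal q).natTrailingDegree = n := by
    rw [← Polynomial.natTrailingDegree_mul hP hQ, ← map_mul, hPQ,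
      Polynomial.natTrailingDegree_monomial hpq]
  have h3 := Polynomial.natTrailingDegree_le_natDegree (scal p)
  have h4 := Polynomial.natTrailingDegree_le_natDegree (scal q)
  exact ⟨(scal p).natDegree, (scal q).natDegree, hom_of_trailing (by omega),
    hom_of_trailing (by omega), h1⟩

theorem HomZ_of_mul {p q : MvPolynomial (Fin 2) ℂ} {a : ℕ} {E D : ℤ} (hD : D = E - a)
    (hp : p.IsHomogeneous a) (hp0 : p ≠ 0) (h : p * q ∈ HomZ E) : q ∈ HomZ D := by
  by_cases hq : q = 0
  · rw [hq]; exact Submodule.zero_mem _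
  have hpq : p * q ≠ 0 := mul_ne_zero hp0 hq
  have hE : 0 ≤ E := by
    by_contra hE
    exact hpq (h.2 (not_le.mp hE))
  obtain ⟨a', b', ha, hb, hab⟩ := hom_of_mul hp0 hq h.1
  have haa : a = a' := hp.inj_right ha hp0
  subst haa
  have hDb : D = b' := by omega
  subst hDb
  exact ⟨by simpa using hb, fun h => by omega⟩

end

end Pool.Agent.Work.MP_3738f3_ag
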