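import Pool.Agent.Work.MP_3738f3_ag.HomFactor

set_option autoImplicit false

namespace Pool.Agent.Work.MP_3738f3_ag

open MvPolynomial

noncomputable section

/-- The stability inequality for all subsystems. -/
def StabIneq (α : ℝ) (e : Fin 11 → ℤ) (V : Submodule ℂ (Fin 11 → MvPolynomial (Fin 2) ℂ)) :
    Prop :=
  ∀ (m : ℕ) (b : Fin m → ℤ) (M : Fin 11 → Fin m → MvPolynomial (Fin 2) ℂ),
    1 ≤ m → (∀ i j, M i j ∈ HomZ (e i - b j)) →
    LinearIndependent (MvPolynomial (Fin 2) ℂ) (fun j : Fin m => fun i : Fin 11 => M i j) →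
    ¬ (m = 11 ∧ ∑ j, b j = 14) →
    (((∑ j, b j : ℤ) : ℝ) +
      α * (Module.finrank ℂ ↥(V ⊓ (Hsec b).map (mulM M)) : ℝ)) / (m : ℝ)
      < (14 + α * 16) / 11

theorem caseA (α : ℝ) (hα : 6 ≤ α) (e : Fin 11 → ℤ)
    (V : Submodule ℂ (Fin 11 → MvPolynomial (Fin 2) ℂ)) (he : ∑ i, e i = 14)
    (hV : Module.finrank ℂ V = 16) (hVh : ∀ s ∈ V, ∀ i, s i ∈ HomZ (e i))
    (hst : StabIneq α e V) : ∀ i, 0 ≤ e i := by
  classical
  by_contra hcon
  push Not at hcon
  obtain ⟨i0, hi0⟩ := hcon
  let J : Finset (Fin 11) := Finset.univ.filter (fun i => 0 ≤ e i)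
  have hJ10 : J.card ≤ 10 := by
    have h1 : J ⊆ Finset.univ.erase i0 := by
      intro i hi
      simp only [J, Finset.mem_filter, Finset.mem_univ, true_and] at hi
      simp only [Finset.mem_erase, Finset.mem_univ, and_true]
      rintro rfl
      omega
    have h2 := Finset.card_le_card h1
    simpa using h2
  have hsumJ : 14 ≤ ∑ i ∈ J, e i := by
    have h1 : ∑ i, e i = ∑ i ∈ J, e i + ∑ i ∈ Finset.univ.filter (fun i => ¬ 0 ≤ e i), e i :=
      (Finset.sum_filter_add_sum_filter_not _ _ _).symm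
    have h2 : ∑ i ∈ Finset.univ.filter (fun i => ¬ 0 ≤ e i), e i ≤ 0 := by
      apply Finset.sum_nonpos
      intro i hi
      simp only [Finset.mem_filter, Finset.mem_univ, true_and, not_le] at hi
      exact hi.le
    linarith
  have hJ1 : 1 ≤ J.card := by
    rw [Nat.one_le_iff_ne_zero]
    intro h0
    rw [Finset.card_eq_zero] at h0
    rw [h0] at hsumJ
    simp at hsumJ
  let ι := J.orderEmbOfFin rfl
  have hιmem : ∀ j, ι j ∈ J := fun j => J.orderEmbOfFin_mem rfl j
  have hιsurj : ∀ i ∈ J, ∃ j, ι j = i := by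
    intro i hi
    have : i ∈ Set.range ι := by
      rw [Finset.range_orderEmbOfFin]
      exact hi
    exact this
  have hιinj : ∀ j j', ι j = ι j' ↔ j = j' := fun j j' => ι.injective.eq_iff
  have key := hst J.card (fun j => e (ι j)) (fun i j => if i = ι j then 1 else 0) hJ1
    (by
      intro i j
      split_ifs with h
      · subst h
        rw [sub_self]
        exact ⟨isHomogeneous_one _ _, fun h => absurd h (lt_irrefl _)⟩
      · exact Submodule.zero_mem _)
    (by
      rw [Fintype.linearIndependent_iff]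
      intro g hg k
      have := congrFun hg (ι k)
      simpa [Finset.sum_apply, hιinj] using this)
    (by rintro ⟨h, -⟩; omega)
  have hsum : ∑ j, e (ι j) = ∑ i ∈ J, e i := by
    have h1 : J = Finset.univ.map ι.toEmbedding := by
      ext i
      simp only [Finset.mem_map, Finset.mem_univ, true_and]
      constructor
      · exact fun hi => hιsurj i hi
      · rintro ⟨j, rfl⟩
        exact hιmem j
    conv_rhs => rw [h1, Finset.sum_map]
    rfl
  have hle : V ≤ (Hsec (fun j => e (ι j))).map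
      (mulM (fun i j => if i = ι j then (1 : MvPolynomial (Fin 2) ℂ) else 0)) := by
    intro s hs
    refine ⟨fun j => s (ι j), mem_Hsec.mpr fun j => hVh s hs (ι j), ?_⟩
    funext i
    rw [mulM_apply]
    by_cases hi : i ∈ J
    · obtain ⟨j, rfl⟩ := hιsurj i hi
      simp [hιinj]
    · have h1 : ∀ j, i ≠ ι j := by
        rintro j rfl
        exact hi (hιmem j)
      simp only [h1, if_false, zero_mul, Finset.sum_const_zero]
      have h2 := hVh s hs i
      simp only [J, Finset.mem_filter, Finset.mem_univ, true_and, not_le] at hi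
      exact (h2.2 hi).symm
  rw [inf_eq_left.mpr hle, hV, hsum] at key
  have hc0 : (0 : ℝ) < (J.card : ℝ) := by exact_mod_cast hJ1
  have hc10 : (J.card : ℝ) ≤ 10 := by exact_mod_cast hJ10
  rw [div_lt_div_iff₀ hc0 (by norm_num)] at key
  have h14 : (14 : ℝ) ≤ ((∑ i ∈ J, e i : ℤ) : ℝ) := by exact_mod_cast hsumJ
  have h3 : (14 + α * 16) * (J.card : ℝ) ≤ (14 + α * 16) * 10 := by
    apply mul_le_mul_of_nonneg_left hc10
    linarith
  push_cast at key
  push_cast at h14
  linarith

/-- Solving the relation `x^2 a + x y b + y^2 c = 0`. -/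
theorem solve_rel {a b c : MvPolynomial (Fin 2) ℂ}
    (h : X 0 * X 0 * a + X 0 * X 1 * b + X 1 * X 1 * c = 0) :
    ∃ f g, a = X 1 * f ∧ b = -(X 0 * f + X 1 * g) ∧ c = X 0 * g := by
  have hx : (X 0 : MvPolynomial (Fin 2) ℂ) ≠ 0 := X_ne_zero 0
  have hy : (X 1 : MvPolynomial (Fin 2) ℂ) ≠ 0 := X_ne_zero 1
  have hyx : ¬ (X 1 : MvPolynomial (Fin 2) ℂ) ∣ X 0 := by
    rw [X_dvd_X]; simp
  have hxy : ¬ (X 0 : MvPolynomial (Fin 2) ℂ) ∣ X 1 := by
    rw [X_dvd_X]; simp
  have hpy : Prime (X 1 : MvPolynomial (Fin 2) ℂ) := X_prime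
  have hpx : Prime (X 0 : MvPolynomial (Fin 2) ℂ) := X_prime
  have h1 : (X 1 : MvPolynomial (Fin 2) ℂ) ∣ X 0 * (X 0 * a) :=
    ⟨-(X 0 * b + X 1 * c), by linear_combination h⟩
  have h2 : (X 1 : MvPolynomial (Fin 2) ℂ) ∣ a := by
    rcases hpy.dvd_or_dvd h1 with h | h
    · exact absurd h hyx
    · rcases hpy.dvd_or_dvd h with h | h
      · exact absurd h hyx
      · exact h
  obtain ⟨f, rfl⟩ := h2
  have h3 : X 0 * X 0 * f + X 0 * b + X 1 * c = 0 := by
    apply mul_left_cancel₀ hy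
    rw [mul_zero]
    linear_combination h
  have h4 : (X 0 : MvPolynomial (Fin 2) ℂ) ∣ X 1 * c := ⟨-(X 0 * f + b), by linear_combination h3⟩
  have h5 : (X 0 : MvPolynomial (Fin 2) ℂ) ∣ c := by
    rcases hpx.dvd_or_dvd h4 with h | h
    · exact absurd h hxy
    · exact h
  obtain ⟨g, rfl⟩ := h5
  refine ⟨f, g, rfl, ?_, rfl⟩
  have h6 : X 0 * f + b + X 1 * g = 0 := by
    apply mul_left_cancel₀ hx
    rw [mul_zero]
    linear_combination h3
  linear_combination h6

/-- The three sections given by dimension count. -/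
theorem exists_rel (e : Fin 11 → ℤ)
    (V : Submodule ℂ (Fin 11 → MvPolynomial (Fin 2) ℂ)) (he : ∑ i, e i = 14)
    (hV : Module.finrank ℂ V = 16) (hVh : ∀ s ∈ V, ∀ i, s i ∈ HomZ (e i))
    (hpos : ∀ i, 0 ≤ e i) :
    ∃ s : Fin 3 → V, s ≠ 0 ∧ ∀ i, X 0 * X 0 * (s 0).1 i + X 0 * X 1 * (s 1).1 i +
      X 1 * X 1 * (s 2).1 i = 0 := by
  have hfin : Module.Finite ℂ V := Module.finite_of_finrank_pos (by rw [hV]; norm_num)
  have hX : ∀ k : Fin 2, (X k : MvPolynomial (Fin 2) ℂ) ∈ HomZ 1 := fun k =>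
    ⟨isHomogeneous_X _ _, by norm_num⟩
  let Φ : (Fin 3 → V) →ₗ[ℂ] Hsec (fun i => e i + 2) :=
    { toFun := fun s => ⟨fun i => X 0 * X 0 * (s 0).1 i + X 0 * X 1 * (s 1).1 i +
        X 1 * X 1 * (s 2).1 i, by
          rw [mem_Hsec]
          intro i
          have h : ∀ k k' : Fin 2, ∀ t : Fin 3, X k * X k' * (s t).1 i ∈ HomZ (e i + 2) := by
            intro k k' t
            exact mul_mem_HomZ (D := 2) (by ring)
              (mul_mem_HomZ (D := 1) (D' := 1) (by norm_num) (hX k) (hX k'))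
              (hVh _ (s t).2 i)
          exact Submodule.add_mem _ (Submodule.add_mem _ (h 0 0 0) (h 0 1 1)) (h 1 1 2)⟩
      map_add' := by
        intro s s'
        apply Subtype.ext
        funext i
        simp only [Pi.add_apply, Submodule.coe_add]
        ring
      map_smul' := by
        intro c s
        apply Subtype.ext
        funext i
        simp only [Pi.smul_apply, Submodule.coe_smul, RingHom.id_apply,
          MvPolynomial.smul_eq_C_mul]
        ring }
  have hlt : Module.finrank ℂ (Hsec (fun i => e i + 2)) < Module.finrank ℂ (Fin 3 → V) := by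
    have hfree : Module.Free ℂ V := Module.Free.of_divisionRing ℂ _
    rw [finrank_Hsec, Module.finrank_pi_fintype, Finset.sum_const, Finset.card_univ,
      Fintype.card_fin, smul_eq_mul, hV]
    have h1 : ((∑ i, (e i + 2 + 1).toNat : ℕ) : ℤ) = 47 := by
      have h2 : ∀ i, ((e i + 2 + 1).toNat : ℤ) = e i + 3 := by
        intro i
        have := hpos i
        omega
      rw [Nat.cast_sum]
      have h3 : ∑ i, ((e i + 2 + 1).toNat : ℤ) = ∑ i, (e i + 3) :=
        Finset.sum_congr rfl fun i _ => h2 i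
      rw [h3, Finset.sum_add_distrib, he]
      simp
    have h4 : (∑ i, (e i + 2 + 1).toNat) = 47 := by exact_mod_cast h1
    rw [h4]
    norm_num
  have hker := LinearMap.ker_ne_bot_of_finrank_lt (f := Φ) hlt
  rw [Submodule.ne_bot_iff] at hker
  obtain ⟨s, hs, hs0⟩ := hker
  refine ⟨s, hs0, fun i => ?_⟩
  have h1 : Φ s = 0 := hs
  have h2 := congrFun (congrArg Subtype.val h1) i
  exact h2

end

end Pool.Agent.Work.MP_3738f3_ag
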